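import Pool.Agent.Y262.EG.Stm

/-!
# Project EG, part PK

The unit tangent bundle of a surface of the class satisfies the hypotheses of the abstract theorem
(assembly of the other parts).
-/

set_option autoImplicit false

open Set Filter Topology MeasureTheory
open scoped ContDiff

noncomputable section

namespace Pool.Agent.Y380.EG

open Pool.Agent.Y262.EG

theorem pk : StUniq → StFrame → StCoc → StVarUp → StEt → StFinP → StDWP → StAlgP → StDens →
    StDvP → StFlP → StMpP → StAlP → StCocP → StKP → StClP → StPk := by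
  intro _ _ hCoc hVar _ hFin hDW hAlg hDens hDv hFlP hMp hAl hCocP hKP hCl
  intro M P _ _ _ _ _ _ Ω φ pr q m Fl L δ δ' κ C g hUT hLiou hGeo hCls
  obtain ⟨c, c1, s, s1, hc⟩ := hCoc Ω φ Fl hUT.opn hUT.smooth hGeo
  obtain ⟨hfin, -, -⟩ := hFin M P Ω φ pr q m hUT hLiou
  obtain ⟨hlft, -, hdW⟩ := hDW M P Ω φ pr q hUT
  obtain ⟨-, hflc, hfl0, hfla⟩ := hFlP M P Ω φ pr q Fl hUT hGeo
  obtain ⟨hone, haddA, hmulA, hinvA⟩ := hAlg M P Ω φ pr q hUT
  obtain ⟨hon, hcc, hcc1, hcs, hcs1, hjac, hcmp⟩ :=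
    hCocP M P Ω φ pr q m Fl hUT hLiou hGeo c c1 s s1 hc
  obtain ⟨hkq, hkA, hk0, hkV, hkH⟩ := hKP M P Ω φ pr q L δ δ' κ C g hUT hCls
  obtain ⟨C', hC'⟩ := hCl M P Ω φ pr q m Fl L δ δ' κ C g hUT hLiou hGeo hCls
  have hopen : IsOpen (YO Ω) := hUT.opn.preimage continuous_fst
  have huq : ∀ T, ∀ p ∈ YO Ω, uu (onP Ω q c) (onP Ω q s) T (q p) = uu c s T p := by
    intro T p hp
    unfold uu
    rw [(hon T p hp).1, (hon T p hp).2.2.1]
  refine ⟨onP Ω q c, onP Ω q c1, onP Ω q s, onP Ω q s1, ?_⟩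
  refine
    { fin := hfin
      flc := hflc
      fl0 := hfl0
      fla := hfla
      flm := fun t => hMp M P Ω φ pr q m Fl hUT hLiou hGeo t
      ct := fun F hF => (hdW F hF).1
      cst := hone
      add := haddA
      mul := hmulA
      inv := hinvA
      dvX := hDv M P Ω φ pr q m hUT hLiou (XX φ) (Or.inl rfl)
      dvH := hDv M P Ω φ pr q m hUT hLiou (HH φ) (Or.inr (Or.inl rfl))
      dvV := hDv M P Ω φ pr q m hUT hLiou (fun _ => VV) (Or.inr (Or.inr rfl))
      dens := hDens M P Ω φ pr q m hUT hfin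
      cmp := fun F hF t => ⟨(hAl M P Ω φ pr q Fl hUT hGeo F hF).1 t, fun x => hcmp F hF t x⟩
      alg := fun F hF x t => (hAl M P Ω φ pr q Fl hUT hGeo F hF).2 x t
      kA := hkA
      k0 := hk0
      kV := hkV
      kH := ⟨C, hkH⟩
      jc := ⟨hcc, hcc1, hcs, hcs1⟩
      jac := hjac
      uA := ?_
      cl := ⟨κ, C', hCls.posκ, hC'⟩ }
  intro T hT
  obtain ⟨hsm, hfd⟩ := hVar Ω φ Fl hUT.opn hUT.smooth hGeo hCls.neg c c1 s s1 hc T hT
  refine ⟨(hsm.of_le (by exact_mod_cast le_top)).congr (fun p hp => huq T p hp), fun x => ?_⟩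
  have hp : lft Ω q x ∈ YO Ω := (hlft x).1
  have hev : (fun p => uu (onP Ω q c) (onP Ω q s) T (q p)) =ᶠ[𝓝 (lft Ω q x)] uu c s T := by
    filter_upwards [hopen.mem_nhds hp] with p hp'
    exact huq T p hp'
  have hfe := hev.fderiv_eq (𝕜 := ℝ)
  have hkk : ∀ t, dW Ω q (HH φ) (kP Ω φ q) (FlP Ω q Fl t x) =
      -fderiv ℝ (curv φ) (Fl t (lft Ω q x)).1 (HH φ (Fl t (lft Ω q x))).1 := fun t =>
    (hkq (Fl t (lft Ω q x)) (hGeo.maps t _ hp)).2
  constructor
  · have h1 : dW Ω q (fun _ => VV) (uu (onP Ω q c) (onP Ω q s) T) x =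
        fderiv ℝ (uu c s T) (lft Ω q x) VV := by
      unfold dW
      rw [hfe]
    rw [h1, (hfd _ hp).1, ← intervalIntegral.integral_neg]
    refine intervalIntegral.integral_congr fun t _ => ?_
    rw [hkk t]
    simp only [yy, uu, onP]
    ring
  · have h1 : dW Ω q (HH φ) (uu (onP Ω q c) (onP Ω q s) T) x =
        fderiv ℝ (uu c s T) (lft Ω q x) (HH φ (lft Ω q x)) := by
      unfold dW
      rw [hfe]
    rw [h1, (hfd _ hp).2, ← intervalIntegral.integral_neg]
    refine intervalIntegral.integral_congr fun t _ => ?_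
    rw [hkk t]
    simp only [yy, uu, onP]
    ring

end Pool.Agent.Y380.EG
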